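import Pool.Agent.D0H77.RZ.Tail

set_option autoImplicit false

/-!
# All quadratic characters modulo almost all `N`

For all but a proportion `C exp (-c R)` of the moduli `N ≤ X`, all the nontrivial quadratic
characters modulo `N`, primitive or not, of whatever conductor `q`, satisfy `L(s,χ) > 0` for
`0 < s < 1`, `|s - 1/2| ≥ R (1 + log log q) / log q`, and have at most `R (1 + log log q)` zeros in
`(0,1)`, counted with multiplicity.
-/

namespace Pool.Agent.Results.MP_0016c7_nt.AlmostAllModuli

/-- `1 + log log q` -/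
noncomputable def llog (q : ℕ) : ℝ := 1 + Real.log (Real.log q)

/-- `L(s,χ)` is real and positive for `0 < s < 1` with `|s - 1/2| ≥ R (1 + log log q) / log q`, and
any finite set of points of `(0,1)` contains at most `R (1 + log log q)` zeros of `L(s,χ)`, counted
with multiplicity; here `q` is the conductor of `χ`. -/
def NearlyPositive (R : ℝ) {N : ℕ} [NeZero N] (χ : DirichletCharacter ℂ N) : Prop :=
  (∀ s : ℝ, 0 < s → s < 1 → R * llog χ.conductor / Real.log χ.conductor ≤ |s - 1 / 2| →
    (DirichletCharacter.LFunction χ (s : ℂ)).im = 0 ∧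
      0 < (DirichletCharacter.LFunction χ (s : ℂ)).re) ∧
  ∀ S : Finset ℝ, (∀ s ∈ S, 0 < s ∧ s < 1) →
    ((∑ s ∈ S, analyticOrderNatAt (DirichletCharacter.LFunction χ) (s : ℂ) : ℕ) : ℝ) ≤
      R * llog χ.conductor

/-- `N` is a good modulus: `N ≥ 1` and all nontrivial quadratic characters modulo `N`, primitive or
not, are nearly positive. -/
def GoodModulus (R : ℝ) (N : ℕ) : Prop :=
  ∃ _ : NeZero N, ∀ χ : DirichletCharacter ℂ N, χ ^ 2 = 1 → χ ≠ 1 → NearlyPositive R χ

/-- **Theorem.** There are `C, c > 0` such that for all `X` and all `R ≥ 0`, all but at most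
`C exp (-c R) X` of the moduli `1 ≤ N ≤ X` have the following property: for every nontrivial
quadratic Dirichlet character `χ` modulo `N` (primitive or not), with conductor `q`, the function
`L(s,χ)` is real and positive for all `0 < s < 1` with `|s - 1/2| ≥ R (1 + log log q) / log q`, and
it has at most `R (1 + log log q)` zeros in `(0,1)`, counted with multiplicity. -/
theorem result : ∃ C c : ℝ, 0 < C ∧ 0 < c ∧ ∀ (X : ℕ) (R : ℝ), 0 ≤ R →
    ((({N | 1 ≤ N ∧ N ≤ X ∧ ¬ GoodModulus R N} : Set ℕ).ncard : ℕ) : ℝ) ≤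
      C * Real.exp (-(c * R)) * X :=
  Pool.Agent.D0H77.RZ.all_moduli

end Pool.Agent.Results.MP_0016c7_nt.AlmostAllModuli
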