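import Mathlib
import Pool.Agent.D0H77.SR.Asm

set_option autoImplicit false

/-!
# For at least 97.8 percent of the real primitive characters only the central value matters

For every `j ≥ 1`, for all but a proportion `1 / (46 j)` of the real primitive characters of
conductor at most `X` all derivatives of even order at least `2 j` of the completed L-function are
positive on the whole real line, and `L(s,χ)` has at most `2 j` zeros in `(0,1)`, counted with
multiplicity. For `j = 1`: for at least `1 - 1/46` of them the completed L-function is strictly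
convex on the real line, `L(s,χ)` has at most two zeros in `(0,1)`, and `L(s,χ) > 0` on `(0,1)` if
and only if `L(1/2,χ) > 0`.
-/

namespace Pool.Agent.Results.MP_0016c7_nt.ConvexLambda

/-- The pairs `(N, χ)`, `1 ≤ N ≤ X`, with `χ` a nontrivial primitive quadratic Dirichlet character
modulo `N`. -/
def Quadratic (X : ℕ) : Set (Σ N : ℕ, DirichletCharacter ℂ N) :=
  {p | (p.1 ≠ 0 ∧ p.2.IsPrimitive ∧ p.2 ^ 2 = 1 ∧ p.2 ≠ 1) ∧ p.1 ≤ X}

/-- The real function `σ ↦ N^(σ/2) Re Λ(σ, χ)` of a real variable. -/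
noncomputable def LamR {N : ℕ} [NeZero N] (χ : DirichletCharacter ℂ N) (σ : ℝ) : ℝ :=
  (N : ℝ) ^ (σ / 2) * (DirichletCharacter.completedLFunction χ (σ : ℂ)).re

/-- All derivatives of even order at least `2 j` of the completed L-function are positive on the
real line, all derivatives of order at least `2 j - 1` are positive to the right of `1/2`, and
`L(s,χ)` has at most `2 j` zeros in `(0,1)`, counted with multiplicity. -/
def Good (j : ℕ) (p : Σ N : ℕ, DirichletCharacter ℂ N) : Prop := ∃ _ : NeZero p.1,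
    (∀ n : ℕ, Even n → 2 * j ≤ n → ∀ σ : ℝ, 0 < iteratedDeriv n (LamR p.2) σ) ∧
    (∀ n : ℕ, 2 * j ≤ n + 1 → ∀ σ : ℝ, 1 / 2 < σ → 0 < iteratedDeriv n (LamR p.2) σ) ∧
    (∀ S : Finset ℝ, (∀ s ∈ S, 0 < s ∧ s < 1) →
      ∑ s ∈ S, analyticOrderNatAt (DirichletCharacter.LFunction p.2) (s : ℂ) ≤ 2 * j)

/-- **Theorem.** (i) For every `j ≥ 1` and all large `X`, all but a proportion `1 / (46 j)` of the
real primitive characters of conductor at most `X` are `Good j`. (ii) For a real primitive character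
`χ` which is `Good 1`, `L(s,χ)` is positive on `(0,1)` if and only if `L(1/2,χ) > 0`. -/
theorem result : (∀ j : ℕ, 1 ≤ j → ∃ X0 : ℕ, ∀ X : ℕ, X0 ≤ X → (Quadratic X).Finite ∧
    (1 - 1 / (46 * j) : ℝ) * ((Quadratic X).ncard : ℝ) ≤
      ((Quadratic X ∩ {p | Good j p}).ncard : ℝ)) ∧
    ∀ (X : ℕ) (p : Σ N : ℕ, DirichletCharacter ℂ N), p ∈ Quadratic X → Good 1 p →
      ∃ _ : NeZero p.1, ((∀ s : ℝ, 0 < s → s < 1 →
        (DirichletCharacter.LFunction p.2 (s : ℂ)).im = 0 ∧
          0 < (DirichletCharacter.LFunction p.2 (s : ℂ)).re) ↔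
        0 < (DirichletCharacter.LFunction p.2 (1 / 2)).re) := by
  refine ⟨fun j hj => ?_, fun X p hp hg => ?_⟩
  · obtain ⟨N, hN⟩ := Pool.Agent.D0H77.SR.main_j j hj
    refine ⟨N, fun X hX => ?_⟩
    obtain ⟨h1, h2⟩ := hN X hX
    have hset : Quadratic X = Pool.Agent.H306R2.RG.LnkC.RPC ∩ {p | p.1 ≤ X} := rfl
    rw [hset]
    refine ⟨h1, h2.trans ?_⟩
    have hsub : (Pool.Agent.H306R2.RG.LnkC.RPC ∩ {p | p.1 ≤ X} ∩
          {p | Pool.Agent.D0H77.SR.Pev (Pool.Agent.D0H77.SR.Qt j) p}) ⊆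
        (Pool.Agent.H306R2.RG.LnkC.RPC ∩ {p | p.1 ≤ X}) ∩ {p | Good j p} := by
      rintro p ⟨hp1, hNz, hp2⟩
      obtain ⟨_, hE⟩ := Pool.Agent.D0H77.SR.cd_of hp1.1
      exact ⟨hp1, hNz, Pool.Agent.D0H77.SR.conseq hE hp2⟩
    exact_mod_cast Set.ncard_le_ncard hsub (h1.subset Set.inter_subset_left)
  · have hp' : p ∈ Pool.Agent.H306R2.RG.LnkC.RPC := hp.1
    obtain ⟨hNz, hE⟩ := Pool.Agent.D0H77.SR.cd_of hp'
    obtain ⟨_, hg1, -, -⟩ := hg
    exact ⟨hNz, Pool.Agent.D0H77.SR.central hE fun n hn h2 σ => hg1 n hn (by omega) σ⟩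

end Pool.Agent.Results.MP_0016c7_nt.ConvexLambda
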