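import Mathlib
import Pool.Agent.D0H77.SR.Mean

set_option autoImplicit false

/-!
# The mean number of real zeros of quadratic Dirichlet L-functions

The mean, over the real primitive characters of conductor at most `X`, of the number of zeros of
`L(s,χ)` in `(0,1)`, counted with multiplicity, is at most `0.34` for all large `X`.
-/

namespace Pool.Agent.Results.MP_0016c7_nt.MeanRealZeros

/-- The pairs `(N, χ)`, `1 ≤ N ≤ X`, with `χ` a nontrivial primitive quadratic Dirichlet character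
modulo `N`. -/
def Quadratic (X : ℕ) : Set (Σ N : ℕ, DirichletCharacter ℂ N) :=
  {p | (p.1 ≠ 0 ∧ p.2.IsPrimitive ∧ p.2 ^ 2 = 1 ∧ p.2 ≠ 1) ∧ p.1 ≤ X}

/-- The number of zeros of `L(s,χ)` in the real interval `(0,1)`, counted with multiplicity. -/
noncomputable def realZeros {N : ℕ} [NeZero N] (χ : DirichletCharacter ℂ N) : ℕ :=
  ∑ᶠ s ∈ Set.Ioo (0 : ℝ) 1, analyticOrderNatAt (DirichletCharacter.LFunction χ) (s : ℂ)

/-- The number of real zeros for a pair `(N, χ)` with `N ≠ 0`. -/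
noncomputable def zeros (p : Σ N : ℕ, DirichletCharacter ℂ N) : ℕ :=
  if h : p.1 = 0 then 0 else @realZeros p.1 ⟨h⟩ p.2

/-- **Theorem.** For all large `X` there are finitely many real primitive characters of conductor at
most `X`, each of their L-functions has finitely many zeros in `(0,1)`, and the mean of the number
of these zeros, counted with multiplicity, is at most `0.34`. -/
theorem result : ∃ X0 : ℕ, ∀ X : ℕ, X0 ≤ X → (Quadratic X).Finite ∧
    (∀ p ∈ Quadratic X, ∃ _ : NeZero p.1, {s : ℝ | 0 < s ∧ s < 1 ∧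
      DirichletCharacter.LFunction p.2 (s : ℂ) = 0}.Finite ∧
      ∀ s : ℝ, analyticOrderAt (DirichletCharacter.LFunction p.2) (s : ℂ) ≠ ⊤) ∧
    (∑ᶠ p ∈ Quadratic X, (zeros p : ℝ)) ≤ (34 / 100 : ℝ) * ((Quadratic X).ncard : ℝ) := by
  classical
  obtain ⟨N, hN⟩ := Pool.Agent.D0H77.SR.mean_zeros
  obtain ⟨C, c, -, -, hfin⟩ := Pool.Agent.D0H77.SR.tail_many
  refine ⟨max N 2, fun X hX => ?_⟩
  have hXN : N ≤ X := (le_max_left _ _).trans hX
  have hX2 : 2 ≤ X := (le_max_right _ _).trans hX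
  have hf : (Quadratic X).Finite := (hfin X 0 hX2).1
  refine ⟨hf, fun p hp => ?_, ?_⟩
  · have hp1 : p ∈ Pool.Agent.H306R2.RG.LnkC.RPC := hp.1
    obtain ⟨hNz, hE⟩ := Pool.Agent.D0H77.SR.cd_of hp1
    refine ⟨hNz, (Pool.Agent.D0H77.SR.fin_zeros hp1).subset ?_,
      fun s => Pool.Agent.D0H77.SR.ord_top hE.ne _⟩
    rintro s ⟨h1, h2, h3⟩
    exact ⟨⟨h1, h2⟩, Pool.Agent.D0H77.SR.oo_zero hE.ne h3⟩
  · have h1 := hN X hXN hf
    have h2 : (∑ᶠ p ∈ Quadratic X, (zeros p : ℝ)) =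
        ∑ p ∈ hf.toFinset, (Pool.Agent.D0H77.SR.nzp p : ℝ) := by
      rw [finsum_mem_eq_finite_toFinset_sum _ hf]
      rfl
    rw [h2]
    exact h1

end Pool.Agent.Results.MP_0016c7_nt.MeanRealZeros
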