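import Mathlib
import Pool.Agent.D0H77.SR.Asm0

set_option autoImplicit false

/-!
# At least 84.9 percent of the real primitive characters have a super-positive L-function
-/

namespace Pool.Agent.Results.MP_0016c7_nt.SuperPositivity

/-- The pairs `(N, χ)`, `1 ≤ N ≤ X`, with `χ` a nontrivial primitive quadratic Dirichlet character
modulo `N`. -/
def Quadratic (X : ℕ) : Set (Σ N : ℕ, DirichletCharacter ℂ N) :=
  {p | (p.1 ≠ 0 ∧ p.2.IsPrimitive ∧ p.2 ^ 2 = 1 ∧ p.2 ≠ 1) ∧ p.1 ≤ X}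

/-- The completed L-function on the real line: `σ ↦ N^(σ/2) Re Λ(σ, χ)`, where
`Λ(s, χ) = π^(-(s+a)/2) Γ((s+a)/2) L(s, χ)`, `χ(-1) = (-1)^a`. -/
noncomputable def LamR {N : ℕ} [NeZero N] (χ : DirichletCharacter ℂ N) (σ : ℝ) : ℝ :=
  (N : ℝ) ^ (σ / 2) * (DirichletCharacter.completedLFunction χ (σ : ℂ)).re

/-- `χ` is super-positive: all derivatives of even order of the completed L-function (also the
function itself) are positive on the whole real line, all derivatives (of any order) are positive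
on `σ > 1/2`, and `L(s,χ)` is real and positive for real `s` with `0 < s < 1`. -/
def SuperPositive (p : Σ N : ℕ, DirichletCharacter ℂ N) : Prop :=
  ∃ _ : NeZero p.1,
    (∀ n : ℕ, Even n → ∀ σ : ℝ, 0 < iteratedDeriv n (LamR p.2) σ) ∧
    (∀ n : ℕ, ∀ σ : ℝ, 1 / 2 < σ → 0 < iteratedDeriv n (LamR p.2) σ) ∧
    (∀ s : ℝ, 0 < s → s < 1 → (DirichletCharacter.LFunction p.2 (s : ℂ)).im = 0 ∧
      0 < (DirichletCharacter.LFunction p.2 (s : ℂ)).re)

/-- **Theorem.** For all large `X`, at least 84.9 percent of the real primitive characters of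
conductor at most `X` are super-positive. -/
theorem result : ∃ X0 : ℕ, ∀ X : ℕ, X0 ≤ X → (Quadratic X).Finite ∧
    (849 / 1000 : ℝ) * ((Quadratic X).ncard : ℝ) ≤
      ((Quadratic X ∩ {p | SuperPositive p}).ncard : ℝ) := by
  obtain ⟨N, hN⟩ := Pool.Agent.D0H77.SR.main_0
  refine ⟨N, fun X hX => ?_⟩
  obtain ⟨h1, h2⟩ := hN X hX
  have hset : Quadratic X = Pool.Agent.H306R2.RG.LnkC.RPC ∩ {p | p.1 ≤ X} := rfl
  rw [hset]
  refine ⟨h1, h2.trans ?_⟩
  have hsub : (Pool.Agent.H306R2.RG.LnkC.RPC ∩ {p | p.1 ≤ X} ∩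
        {p | Pool.Agent.D0H77.SR.Pev (Pool.Agent.D0H77.SR.Qt 0) p}) ⊆
      (Pool.Agent.H306R2.RG.LnkC.RPC ∩ {p | p.1 ≤ X}) ∩ {p | SuperPositive p} := by
    rintro p ⟨hp1, hNz, hp2⟩
    obtain ⟨_, hE⟩ := Pool.Agent.D0H77.SR.cd_of hp1.1
    exact ⟨hp1, hNz, Pool.Agent.D0H77.SR.super hE fun k => hp2 k (Nat.zero_le k)⟩
  exact_mod_cast Set.ncard_le_ncard hsub (h1.subset Set.inter_subset_left)

end Pool.Agent.Results.MP_0016c7_nt.SuperPositivity
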